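import Pool.Agent.Z85.PA.Comp

/-!
# Iterated public announcements over finite epistemic models: undecidable, and complete for `Π⁰₁`

For every number `k ≥ 2` of agents, the set of the finitely valid formulas of the language with
knowledge, common knowledge, public announcements and iterated public announcements is hard for
co-recursively enumerable sets under many-one reductions; so it is not decidable.  (That it is
co-recursively enumerable is listed as known in the problem: together, the set is
`Π⁰₁`-complete.)

Proof in outline.  Let a counter program with `K` counters be given.  A halting computation is
coded by a finite epistemic model: there is one world for each configuration, linked to the next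
one by one step of the first agent and one of the second, and to each configuration `K + 1` chains
are attached, whose lengths are the values of the counters and the remaining time.  The
announcement `peel` removes the last element of every chain, everywhere in the model at the same
time.  So the chain `j` of the configuration `v` has length `c` if and only if `c` is the least
number of announcements after which it is empty (`endF j` holds at `v`), and statements such as
*the counter `j` of the successor `v'` is by one larger* are expressed by one iterated
announcement: after every number `n` of announcements, `endF j` holds at `v` if and only if it
holds at `v'` after one further announcement.  In an arbitrary model of the resulting formula these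
thresholds follow the computation of the program, and the threshold of the time chain, which is
finite and decreases in every step, shows that the program halts (`Pool.Agent.Z85.PA.Sound`); the
model described above satisfies the formula (`Pool.Agent.Z85.PA.Complete`).  The counter programs
for the recursively enumerable sets are from `Pool.Agent.Helper707`.
-/

set_option autoImplicit false

namespace Pool.Agent.Results.MP_6a7b9a_lc.CoREHard

open Pool.Agent.Z85.PA

theorem not_computable {k : ℕ} (h : ∀ p : ℕ → Prop, REPred (fun n => ¬ p n) →
    ManyOneReducible p (fun n => ∃ φ : Form k, code φ = n ∧ FinValid φ)) :
    ¬ ComputablePred fun n => ∃ φ : Form k, code φ = n ∧ FinValid φ := by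
  intro hc
  let p : ℕ → Prop := fun n => ¬ ((Denumerable.ofNat Nat.Partrec.Code n).eval 0).Dom
  have hp : REPred fun n => ¬ p n := by
    have h1 : REPred fun c : Nat.Partrec.Code => (Nat.Partrec.Code.eval c 0).Dom :=
      ComputablePred.halting_problem_re 0
    have h2 : REPred fun n : ℕ => ((Denumerable.ofNat Nat.Partrec.Code n).eval 0).Dom := by
      have := Partrec.comp (f := fun c : Nat.Partrec.Code =>
        (Part.assert (Nat.Partrec.Code.eval c 0).Dom fun _ => Part.some ()))
        (g := fun n : ℕ => Denumerable.ofNat Nat.Partrec.Code n) h1
        (Computable.ofNat Nat.Partrec.Code)
      exact this
    refine h2.of_eq fun n => ?_
    simp only [p, not_not]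
  have h1 := ComputablePred.computable_of_manyOneReducible (h p hp) hc
  have h2 : ComputablePred fun n => ((Denumerable.ofNat Nat.Partrec.Code n).eval 0).Dom := by
    have := h1.not
    refine this.of_eq fun n => ?_
    simp only [p, not_not]
  refine ComputablePred.halting_problem 0 ?_
  have h3 : ManyOneReducible (fun c : Nat.Partrec.Code => (Nat.Partrec.Code.eval c 0).Dom)
      (fun n => ((Denumerable.ofNat Nat.Partrec.Code n).eval 0).Dom) := by
    refine ⟨Encodable.encode, Computable.encode, fun c => ?_⟩
    simp only [Denumerable.ofNat_encode]
  exact ComputablePred.computable_of_manyOneReducible h3 h2

/-- For at least two agents, every co-recursively enumerable set is many-one reducible to the set of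
(Goedel numbers of) finitely valid formulas, and this set is not decidable. -/
theorem result (k : ℕ) (hk : 2 ≤ k) :
    (∀ p : ℕ → Prop, REPred (fun n => ¬ p n) →
      ManyOneReducible p (fun n => ∃ φ : Form k, code φ = n ∧ FinValid φ)) ∧
    ¬ ComputablePred (fun n => ∃ φ : Form k, code φ = n ∧ FinValid φ) :=
  ⟨fun _ hp => hard hk hp, not_computable fun _ hp => hard hk hp⟩

end Pool.Agent.Results.MP_6a7b9a_lc.CoREHard
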